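import Pool.Agent.Lib.H99Cap.HdMain

/-!
MP_3c8d04_lc, partial result: measurability together with uniformization gives the theorem of
Besicovitch and Davies (compact subsets of almost full Hausdorff dimension), level by level in the
projective hierarchy.
-/

set_option autoImplicit false

namespace Pool.Agent.Results.MP_3c8d04_lc.HausdorffDimension

open MeasureTheory Topology H97Proj H99Cap

/-- Let `k ≥ 1`. If every boldface Sigma^1_k subset of Baire space is Lebesgue measurable and
every boldface Pi^1_n relation on Baire space has a uniformization which is boldface Sigma^1_k,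
then the Hausdorff dimension of every boldface Sigma^1_(n+1) set `A` of real numbers is the
supremum of the Hausdorff dimensions of the compact subsets of `A`. -/
theorem result (n k : ℕ) (hk : 1 ≤ k)
    (hLM : ∀ A : Set Baire, IsSigma k Baire A → NullMeasurableSet A lam)
    (hU : ∀ R : Set (Baire × Baire), IsPi n (Baire × Baire) R →
      ∃ S ⊆ R, IsSigma k (Baire × Baire) S ∧
        ∀ x, (∃ y, (x, y) ∈ R) → ∃! y, (x, y) ∈ S)
    (A : Set ℝ) (hA : IsSigma (n + 1) ℝ A) :
    dimH A = ⨆ (P : Set ℝ) (_ : P ⊆ A) (_ : IsCompact P), dimH P := by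
  apply le_antisymm
  · refine le_of_forall_lt fun r hr => ?_
    obtain ⟨P, hPA, hPc, hP⟩ := dimension hk hLM hU A hA r hr
    refine lt_of_lt_of_le hP ?_
    exact le_iSup_of_le P (le_iSup_of_le hPA (le_iSup_of_le hPc le_rfl))
  · exact iSup_le fun P => iSup_le fun hPA => iSup_le fun _ => dimH_mono hPA

/-! ### The global form, for the reader -/

/-- If every projective set of reals is Lebesgue measurable and every class Pi^1_(2n+1) has the
uniformization property, then the Hausdorff dimension of every projective set of real numbers is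
the supremum of the dimensions of its compact subsets. -/
theorem projective
    (hLM : ∀ (k : ℕ) (A : Set Baire), IsSigma k Baire A → NullMeasurableSet A lam)
    (hPi : ∀ (n : ℕ) (R : Set (Baire × Baire)), IsPi (2 * n + 1) (Baire × Baire) R →
      ∃ S ⊆ R, IsPi (2 * n + 1) (Baire × Baire) S ∧
        ∀ x, (∃ y, (x, y) ∈ R) → ∃! y, (x, y) ∈ S)
    (k : ℕ) (A : Set ℝ) (hA : IsSigma k ℝ A) :
    dimH A = ⨆ (P : Set ℝ) (_ : P ⊆ A) (_ : IsCompact P), dimH P := by
  have hA' : IsSigma (2 * k + 1 + 1) ℝ A := isSigma_mono (by omega) hA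
  refine result (2 * k + 1) (2 * k + 1 + 1) (by omega) (fun A hA => hLM _ A hA)
    (fun R hR => ?_) A hA'
  obtain ⟨S, hS1, hS2, hS3⟩ := hPi k R hR
  refine ⟨S, hS1, ?_, hS3⟩
  have h1 : IsSigma (2 * k + 1 + 1) (Baire × Baire) Sᶜᶜ := IsSigma.compl_succ hS2
  rwa [compl_compl] at h1

end Pool.Agent.Results.MP_3c8d04_lc.HausdorffDimension
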