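import Pool.Agent.Lib.H99Cap.LocMain

/-!
MP_3c8d04_lc, partial result: measurability together with uniformization gives the localization
(slalom) dichotomy, level by level in the projective hierarchy.
-/

set_option autoImplicit false

namespace Pool.Agent.Results.MP_3c8d04_lc.Localization

open MeasureTheory Topology H97Proj H99Cap

/-- Let `n ≥ 1` and `k ≥ 1`. If every boldface Sigma^1_k set of reals is Lebesgue measurable and
every boldface Pi^1_n relation on the reals has a uniformization which is boldface Sigma^1_k, then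
for every `t : ℕ → ℕ` every boldface Sigma^1_(n+1) set `A` of reals is `t`-small (there are finite
sets `φ n` of natural numbers with `∑ |φ n| 2^(-t n) < ∞` such that every `x` in `A` has
`x n ∈ φ n` for all but finitely many `n`) or contains a compact set which is not `t`-small. -/
theorem result (n k : ℕ) (hn : 1 ≤ n) (hk : 1 ≤ k)
    (hLM : ∀ A : Set Baire, IsSigma k Baire A → NullMeasurableSet A lam)
    (hU : ∀ R : Set (Baire × Baire), IsPi n (Baire × Baire) R →
      ∃ S ⊆ R, IsSigma k (Baire × Baire) S ∧
        ∀ x, (∃ y, (x, y) ∈ R) → ∃! y, (x, y) ∈ S)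
    (t : ℕ → ℕ) (A : Set Baire) (hA : IsSigma (n + 1) Baire A) :
    Small t A ∨ ∃ P ⊆ A, IsCompact P ∧ ¬ Small t P :=
  localization hn hk hLM hU t A hA

/-! ### The global form, for the reader -/

/-- If every projective set of reals is Lebesgue measurable and every class Pi^1_(2n+1) has the
uniformization property, then every projective set of reals is `t`-small or contains a compact
set which is not `t`-small. -/
theorem projective
    (hLM : ∀ (k : ℕ) (A : Set Baire), IsSigma k Baire A → NullMeasurableSet A lam)
    (hPi : ∀ (n : ℕ) (R : Set (Baire × Baire)), IsPi (2 * n + 1) (Baire × Baire) R →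
      ∃ S ⊆ R, IsPi (2 * n + 1) (Baire × Baire) S ∧
        ∀ x, (∃ y, (x, y) ∈ R) → ∃! y, (x, y) ∈ S)
    (t : ℕ → ℕ) (k : ℕ) (A : Set Baire) (hA : IsSigma k Baire A) :
    Small t A ∨ ∃ P ⊆ A, IsCompact P ∧ ¬ Small t P := by
  have hA' : IsSigma (2 * k + 1 + 1) Baire A := isSigma_mono (by omega) hA
  refine result (2 * k + 1) (2 * k + 1 + 1) (by omega) (by omega) (fun A hA => hLM _ A hA)
    (fun R hR => ?_) t A hA'
  obtain ⟨S, hS1, hS2, hS3⟩ := hPi k R hR
  refine ⟨S, hS1, ?_, hS3⟩
  have h1 : IsSigma (2 * k + 1 + 1) (Baire × Baire) Sᶜᶜ := IsSigma.compl_succ hS2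
  rwa [compl_compl] at h1

end Pool.Agent.Results.MP_3c8d04_lc.Localization
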