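import Pool.Agent.Lib.H97Proj.Main

/-!
MP_3c8d04_lc, partial result: Lebesgue measurability together with uniformization gives the
perfect set property, level by level in the projective hierarchy.
-/

namespace Pool.Agent.Results.MP_3c8d04_lc.PerfectSets

open MeasureTheory H97Proj

/-- Let `n ≥ 1` and `k ≥ n + 2`. If every boldface Sigma^1_k set of reals is Lebesgue measurable
and every boldface Pi^1_n relation on the reals has a uniformization which is boldface Sigma^1_k
(for instance, one which is Pi^1_n), then every boldface Sigma^1_(n+1) set of reals is countable or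
contains a nonempty perfect set. -/
theorem result (n k : ℕ) (hn : 1 ≤ n) (hk : n + 2 ≤ k)
    (hLM : ∀ A : Set Baire, IsSigma k Baire A → NullMeasurableSet A lam)
    (hU : ∀ R : Set (Baire × Baire), IsPi n (Baire × Baire) R →
      ∃ S ⊆ R, IsSigma k (Baire × Baire) S ∧
        ∀ x, (∃ y, (x, y) ∈ R) → ∃! y, (x, y) ∈ S)
    (A : Set Baire) (hA : IsSigma (n + 1) Baire A) :
    A.Countable ∨ ∃ P ⊆ A, P.Nonempty ∧ Perfect P :=
  perfect_sets hn hk hLM hU A hA

/-! ### The global form, for the reader -/

/-- If every projective set of reals is Lebesgue measurable and every class Pi^1_(2n+1) has the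
uniformization property, then every projective set of reals has the perfect set property. -/
theorem projective
    (hLM : ∀ (k : ℕ) (A : Set Baire), IsSigma k Baire A → NullMeasurableSet A lam)
    (hPi : ∀ (n : ℕ) (R : Set (Baire × Baire)), IsPi (2 * n + 1) (Baire × Baire) R →
      ∃ S ⊆ R, IsPi (2 * n + 1) (Baire × Baire) S ∧
        ∀ x, (∃ y, (x, y) ∈ R) → ∃! y, (x, y) ∈ S)
    (k : ℕ) (A : Set Baire) (hA : IsSigma k Baire A) :
    A.Countable ∨ ∃ P ⊆ A, P.Nonempty ∧ Perfect P := by
  have hA' : IsSigma (2 * k + 1 + 1) Baire A := isSigma_mono (by omega) hA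
  refine result (2 * k + 1) (2 * k + 1 + 2) (by omega) le_rfl (fun A hA => hLM _ A hA)
    (fun R hR => ?_) A hA'
  obtain ⟨S, hS1, hS2, hS3⟩ := hPi k R hR
  refine ⟨S, hS1, ?_, hS3⟩
  have h1 : IsSigma (2 * k + 1 + 1) (Baire × Baire) Sᶜᶜ := IsSigma.compl_succ hS2
  rw [compl_compl] at h1
  exact isSigma_mono (by omega) h1

end Pool.Agent.Results.MP_3c8d04_lc.PerfectSets
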